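import Mathlib
import Pool.Agent.H17.Bn.VarC

/-!
# The variational Hodge conjecture for abelian schemes in one codimension

Let `𝒜` be a system of classes on complex abelian varieties which is stable under linear
combinations, cup products, pull-backs along homomorphisms and push-forwards along projections, and
which contains the Hodge classes of degree two, for instance the system of the algebraic classes
(Lefschetz). The *variational principle* in degree `2 m` (`Variational 𝒜 (2 * m)`) says: if `X` and
`X'` are two abelian varieties with the same rational homology and a common polarization and a class
`f` of degree `2 m` is a Hodge class on `X` and on `X'` and belongs to `𝒜` on `X`, then it belongs to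
`𝒜` on `X'`. For the algebraic classes this is the variational Hodge conjecture for abelian schemes
and classes of codimension `m` (the two varieties are joined by the connected Shimura variety of the
complex structures for which `f` is a Hodge class; conversely a global section which is algebraic on
one fibre is a Hodge class on all fibres).

**Theorem.** For each single `m ≥ 2` the variational principle in degree `2 m` is equivalent to the
following statement: `𝒜` contains

* all Hodge classes of degree `2 k` for all `k ≤ m` on all complex abelian varieties, and
* all Hodge classes of **all** degrees on each abelian variety `A` which is generated by images of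
  abelian varieties `B k` satisfying one of the conditions `MultLe m (B k)` (a number field acts on
  `B k` and each of its complex embeddings has multiplicity at most `m` in the tangent space; for the
  field `ℚ` this is the condition `dim B k ≤ m`, for an imaginary quadratic field of endomorphisms of
  signature `(p, q)` the condition `p, q ≤ m`) and `RelDim m (B k)` (a totally real field `F` acts on
  `B k` and `dim B k ≤ m [F : ℚ]`).

So the variational Hodge conjecture for abelian schemes and cycles of codimension `m` implies the
Hodge conjecture, hence the variational Hodge conjecture, in all codimensions for all fibre products
of abelian schemes of relative dimension at most `m`, of families of Weil type of dimension at most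
`2 m`, of Hilbert-Blumenthal families etc.

Before it was known (in the library) that the principle in degree four is equivalent to `𝒜`
containing all Hodge classes of degree four, and that the principles in degree four and, in
unbounded degrees, for split Weil classes imply everything.

Outline of the proof. (1) The principle in degree `n + 2` implies that in degree `n` (multiply the
varieties by an elliptic curve and the class by the class of a point). (2) So the principle in degree
four holds; by the library the Hodge classes of degree four belong to `𝒜`, and by
`H17/Bn/Main.lean` (for `m = 2`) all Hodge classes on the abelian varieties of CM type. (3) A Hodge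
class `f` on `X` remains a Hodge class on some abelian variety `X'` of CM type with the same rational
homology and polarization (library). So the Hodge classes of degree `2 m` belong to `𝒜`. (4) The main
theorem of `H17/Bn/Main.lean`: the Hodge classes of degree `2 m` generate all Hodge classes on the
abelian varieties with multiplicities at most `m`.
-/

namespace Pool.Agent.Results.MP_e9c0f3_ag.OneCodimension

open Pool.Agent.NH32 Pool.Agent.Y90 Pool.Agent.H17.Bn Pool.Agent.NH36.VH
open Pool.Agent.H204R3.CM (IsHodge)

/-- **The theorem.** Let `m ≥ 2` and let `𝒜` be a system of classes which contains the Hodge classes
of degree two. The variational principle for the classes of the one codimension `m` is equivalent to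
the statement that `𝒜` contains all Hodge classes of codimension at most `m` on all complex abelian
varieties and all Hodge classes of all codimensions on the abelian varieties generated by abelian
varieties of multiplicities at most `m`. -/
theorem result (m : ℕ) (hm : 2 ≤ m) (𝒜 : Sys)
    (h2 : ∀ (X : AV) (f : X.H [⋀^Fin 2]→ₗ[ℚ] ℚ), IsHodge X.per f → 𝒜.A X (Fin 2) f) :
    Variational 𝒜 (2 * m) ↔
      (∀ k ≤ m, ∀ (X : AV) (f : X.H [⋀^Fin (2 * k)]→ₗ[ℚ] ℚ), IsHodge X.per f →
        𝒜.A X (Fin (2 * k)) f) ∧
      ∀ (A : AV) (ι : Type) (B : ι → AV) (i : ∀ k, (B k).H →ₗ[ℚ] A.H),
        (∀ k, IsHom (B k) A (i k)) → ⨆ k, LinearMap.range (i k) = ⊤ →
        (∀ k, MultLe m (B k) ∨ RelDim m (B k)) → 𝒜.AllHodge A := by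
  constructor
  · intro hv
    have h := var_deg 𝒜 h2 hm hv
    refine ⟨fun k hk X => deg_le 𝒜 h (m - k) X k (by omega), ?_⟩
    intro A ι B i hi hg hB
    exact main_bd hm 𝒜 h A (ab_gen B i hi hg fun k => (hB k).elim ab_mult ab_rel)
  · rintro ⟨h, -⟩ X X' e E - - f hf - -
    exact h m le_rfl X' f hf

end Pool.Agent.Results.MP_e9c0f3_ag.OneCodimension
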